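import Mathlib

/-!
# Shortest flip paths between multitriangulations may flip a common edge

An `ℓ`-crossing of the convex polygon with vertices `0, 1, …, n - 1` (in this cyclic order) is a set
of `ℓ` pairwise crossing edges (sides and diagonals). A `k`-triangulation is an inclusion maximal set
of edges without a `(k + 1)`-crossing. Two `k`-triangulations are adjacent in the flip graph if they
differ by the exchange of one edge.

By the universality theorem recorded in the problem file, Q1 on pseudoline arrangements with contact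
points is equivalent to the assertion that a shortest path in the flip graph between two
`k`-triangulations never flips an edge that is common to them. For `k = 1` (the associahedron) this is
the theorem of Sleator, Tarjan and Thurston. We disprove the assertion: for the `2`-triangulations of
the octagon there is a shortest path, of length `4`, that flips a common edge of its end points.

Of the `28` edges of the octagon the `16` edges `{i, i + 1}` and `{i, i + 2}` are in all
`2`-triangulations. We describe a `2`-triangulation by its `6` remaining edges. The path is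

* `03 04 05 14 36 37`
* `03 04 05 14 16 36` (flip of the common edge `37` to `16`)
* `03 04 05 16 26 36`
* `03 05 16 25 26 36`
* `03 16 25 26 36 37` (flip of `05`, and `37` is back)
-/

set_option autoImplicit false

namespace Pool.Agent.Results.MP_1d99bd_co.CommonEdgeFlipped

/-- An edge (side or diagonal) of the convex polygon with vertices `0, 1, …, n - 1` in cyclic order. -/
abbrev Edge (n : ℕ) : Type := {p : Fin n × Fin n // p.1 < p.2}

/-- Two edges cross: the end points of each of them are strictly separated by the other one. -/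
def Cross {n : ℕ} (p q : Edge n) : Prop :=
  (p.1.1 < q.1.1 ∧ q.1.1 < p.1.2 ∧ p.1.2 < q.1.2) ∨
    (q.1.1 < p.1.1 ∧ p.1.1 < q.1.2 ∧ q.1.2 < p.1.2)

instance {n : ℕ} (p q : Edge n) : Decidable (Cross p q) := by
  unfold Cross
  infer_instance

/-- There is no set of `k + 1` pairwise crossing edges in `T`. -/
def CrossingFree {n : ℕ} (k : ℕ) (T : Finset (Edge n)) : Prop :=
  ∀ S ⊆ T, (∀ p ∈ S, ∀ q ∈ S, p ≠ q → Cross p q) → S.card ≤ k

/-- A `k`-triangulation: an inclusion maximal set of edges without `k + 1` pairwise crossing edges. -/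
def IsKTriangulation {n : ℕ} (k : ℕ) (T : Finset (Edge n)) : Prop :=
  CrossingFree k T ∧ ∀ U : Finset (Edge n), T ⊆ U → CrossingFree k U → U = T

/-- The `k`-triangulations of the convex `n`-gon. -/
abbrev KTriangulation (n k : ℕ) : Type := {T : Finset (Edge n) // IsKTriangulation k T}

/-- The flip graph: two `k`-triangulations are adjacent if they differ by the exchange of one edge. -/
def flipGraph (n k : ℕ) : SimpleGraph (KTriangulation n k) where
  Adj T T' := (T.1 \ T'.1).card = 1 ∧ (T'.1 \ T.1).card = 1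
  symm := ⟨fun _ _ h => ⟨h.2, h.1⟩⟩
  loopless := ⟨fun T h => by simp at h⟩

theorem cross_symm {n : ℕ} {p q : Edge n} (h : Cross p q) : Cross q p := Or.symm h

theorem cross_ne {n : ℕ} {p q : Edge n} (h : Cross p q) : p ≠ q := by
  rintro rfl
  rcases h with h | h <;> exact lt_irrefl _ h.1

theorem not_free {n : ℕ} {T : Finset (Edge n)} {a b c : Edge n} (ha : a ∈ T) (hb : b ∈ T)
    (hc : c ∈ T) (h1 : Cross a b) (h2 : Cross a c) (h3 : Cross b c) : ¬ CrossingFree 2 T := by
  intro h
  have h4 := h {a, b, c} (by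
    intro x hx
    simp only [Finset.mem_insert, Finset.mem_singleton] at hx
    rcases hx with rfl | rfl | rfl <;> assumption) (by
    intro p hp q hq hne
    simp only [Finset.mem_insert, Finset.mem_singleton] at hp hq
    rcases hp with rfl | rfl | rfl <;> rcases hq with rfl | rfl | rfl <;>
      first
      | exact absurd rfl hne
      | assumption
      | exact cross_symm (by assumption))
  rw [Finset.card_eq_three.2 ⟨a, b, c, cross_ne h1, cross_ne h2, cross_ne h3, rfl⟩] at h4
  omega

theorem free_of {n : ℕ} {T : Finset (Edge n)}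
    (h : ∀ a ∈ T, ∀ b ∈ T, Cross a b → ∀ c ∈ T, Cross a c → Cross b c → False) :
    CrossingFree 2 T := by
  intro S hS hc
  by_contra hcard
  obtain ⟨U, hU, hU3⟩ := Finset.exists_subset_card_eq (s := S) (n := 3) (by omega)
  obtain ⟨a, b, c, hab, hac, hbc, rfl⟩ := Finset.card_eq_three.1 hU3
  have ha : a ∈ S := hU (by simp)
  have hb : b ∈ S := hU (by simp)
  have hcS : c ∈ S := hU (by simp)
  exact h a (hS ha) b (hS hb) (hc a ha b hb hab) c (hS hcS) (hc a ha c hcS hac)
    (hc b hb c hcS hbc)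

theorem tri_of {n : ℕ} {T : Finset (Edge n)}
    (h : ∀ a ∈ T, ∀ b ∈ T, Cross a b → ∀ c ∈ T, Cross a c → Cross b c → False)
    (h' : ∀ c, c ∉ T → ∃ a ∈ T, ∃ b ∈ T, Cross a b ∧ Cross a c ∧ Cross b c) :
    IsKTriangulation 2 T := by
  refine ⟨free_of h, fun U hU hfree => ?_⟩
  refine le_antisymm (fun c hc => ?_) hU
  by_contra hcT
  obtain ⟨a, ha, b, hb, h1, h2, h3⟩ := h' c hcT
  exact not_free (hU ha) (hU hb) hc h1 h2 h3 hfree

/-- The set of all edges of the octagon that are not in the list. -/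
def mk (L : List (ℕ × ℕ)) : Finset (Edge 8) :=
  Finset.univ.filter fun e => ((e.1.1 : ℕ), (e.1.2 : ℕ)) ∉ L

/-- `03 04 05 14 36 37` -/
def T0 : Finset (Edge 8) := mk [(1, 5), (1, 6), (2, 5), (2, 6), (2, 7), (4, 7)]

/-- `03 04 05 14 16 36` -/
def T1 : Finset (Edge 8) := mk [(1, 5), (2, 5), (2, 6), (2, 7), (3, 7), (4, 7)]

/-- `03 04 05 16 26 36` -/
def T2 : Finset (Edge 8) := mk [(1, 4), (1, 5), (2, 5), (2, 7), (3, 7), (4, 7)]

/-- `03 05 16 25 26 36` -/
def T3 : Finset (Edge 8) := mk [(0, 4), (1, 4), (1, 5), (2, 7), (3, 7), (4, 7)]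

/-- `03 16 25 26 36 37` -/
def T4 : Finset (Edge 8) := mk [(0, 4), (0, 5), (1, 4), (1, 5), (2, 7), (4, 7)]

theorem isT0 : IsKTriangulation 2 T0 := by
  apply tri_of <;> decide +kernel

theorem isT1 : IsKTriangulation 2 T1 := by
  apply tri_of <;> decide +kernel

theorem isT2 : IsKTriangulation 2 T2 := by
  apply tri_of <;> decide +kernel

theorem isT3 : IsKTriangulation 2 T3 := by
  apply tri_of <;> decide +kernel

theorem isT4 : IsKTriangulation 2 T4 := by
  apply tri_of <;> decide +kernel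

/-- An exchange in `T0` that brings in an edge of `T4` cannot remove an edge that is not in `T4`. -/
theorem exch : ∀ x : Edge 8, x ∈ T0 → x ∉ T4 → ∀ y : Edge 8, y ∉ T0 → y ∈ T4 →
    ∃ a, a ∈ T0 ∧ a ≠ x ∧ Cross a y ∧ ∃ b, b ∈ T0 ∧ b ≠ x ∧ Cross b y ∧ Cross a b := by
  decide +kernel

theorem card04 : (T0 \ T4).card = 3 := by decide +kernel

theorem step {A B : Finset (Edge 8)} (h : (A \ B).card = 1) (T : Finset (Edge 8)) :
    (A \ T).card ≤ (B \ T).card + 1 := by
  have h1 : A \ T ⊆ (A \ B) ∪ (B \ T) := by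
    intro x hx
    simp only [Finset.mem_sdiff, Finset.mem_union] at hx ⊢
    tauto
  have h2 := Finset.card_le_card h1
  have h3 := Finset.card_union_le (A \ B) (B \ T)
  omega

theorem le_walk {A B : KTriangulation 8 2} (p : (flipGraph 8 2).Walk A B) :
    (A.1 \ B.1).card ≤ p.length := by
  induction p with
  | nil => simp
  | @cons u v w h p ih =>
    have h1 := step h.1 w.1
    rw [SimpleGraph.Walk.length_cons]
    omega

theorem three_le {B : KTriangulation 8 2} (h : (flipGraph 8 2).Adj ⟨T0, isT0⟩ B) :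
    3 ≤ (B.1 \ T4).card := by
  obtain ⟨h1, h2⟩ := h
  obtain ⟨x, hx⟩ := Finset.card_eq_one.1 h1
  obtain ⟨y, hy⟩ := Finset.card_eq_one.1 h2
  have hx0 : x ∈ T0 \ B.1 := by rw [hx]; simp
  have hy0 : y ∈ B.1 \ T0 := by rw [hy]; simp
  rw [Finset.mem_sdiff] at hx0 hy0
  have hin : ∀ z ∈ T0, z ≠ x → z ∈ B.1 := by
    intro z hz hzx
    by_contra hzB
    have : z ∈ T0 \ B.1 := Finset.mem_sdiff.2 ⟨hz, hzB⟩
    rw [hx, Finset.mem_singleton] at this
    exact hzx this
  have hsub : (T0 \ T4).erase x ⊆ B.1 \ T4 := by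
    intro z hz
    rw [Finset.mem_erase, Finset.mem_sdiff] at hz
    exact Finset.mem_sdiff.2 ⟨hin z hz.2.1 hz.1, hz.2.2⟩
  by_cases hx4 : x ∈ T4
  · have h3 : (T0 \ T4).erase x = T0 \ T4 := Finset.erase_eq_of_notMem (by simp [hx4])
    rw [h3] at hsub
    have h4 := Finset.card_le_card hsub
    rw [card04] at h4
    exact h4
  · by_cases hy4 : y ∈ T4
    · exfalso
      obtain ⟨a, ha, hax, hay, b, hb, hbx, hby, hab⟩ := exch x hx0.1 hx4 y hy0.2 hy4
      exact not_free (hin a ha hax) (hin b hb hbx) hy0.1 hab hay hby B.2.1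
    · have h5 : insert y ((T0 \ T4).erase x) ⊆ B.1 \ T4 := by
        intro z hz
        rw [Finset.mem_insert] at hz
        rcases hz with rfl | hz
        · exact Finset.mem_sdiff.2 ⟨hy0.1, hy4⟩
        · exact hsub hz
      have h6 := Finset.card_le_card h5
      rw [Finset.card_insert_of_notMem (by simp [hy0.2]),
        Finset.card_erase_of_mem (Finset.mem_sdiff.2 ⟨hx0.1, hx4⟩), card04] at h6
      exact h6

theorem four_le {A B : KTriangulation 8 2} (p : (flipGraph 8 2).Walk A B) (hA : A.1 = T0)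
    (hB : B.1 = T4) : 4 ≤ p.length := by
  cases p with
  | nil =>
    have h := card04
    rw [← hA, ← hB] at h
    simp at h
  | @cons _ v _ h q =>
    obtain rfl : A = ⟨T0, isT0⟩ := Subtype.ext hA
    have h1 := three_le h
    have h2 := le_walk q
    rw [hB] at h2
    rw [SimpleGraph.Walk.length_cons]
    omega

theorem adj01 : (flipGraph 8 2).Adj ⟨T0, isT0⟩ ⟨T1, isT1⟩ :=
  ⟨by change (T0 \ T1).card = 1; decide +kernel, by change (T1 \ T0).card = 1; decide +kernel⟩

theorem adj12 : (flipGraph 8 2).Adj ⟨T1, isT1⟩ ⟨T2, isT2⟩ :=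
  ⟨by change (T1 \ T2).card = 1; decide +kernel, by change (T2 \ T1).card = 1; decide +kernel⟩

theorem adj23 : (flipGraph 8 2).Adj ⟨T2, isT2⟩ ⟨T3, isT3⟩ :=
  ⟨by change (T2 \ T3).card = 1; decide +kernel, by change (T3 \ T2).card = 1; decide +kernel⟩

theorem adj34 : (flipGraph 8 2).Adj ⟨T3, isT3⟩ ⟨T4, isT4⟩ :=
  ⟨by change (T3 \ T4).card = 1; decide +kernel, by change (T4 \ T3).card = 1; decide +kernel⟩

/-- Shortest paths in the flip graph of the `k`-triangulations of the `n`-gon flip no edges that are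
common to their end points. -/
def NeverFlipsCommonEdges (n k : ℕ) : Prop :=
  ∀ (T T' : KTriangulation n k) (p : (flipGraph n k).Walk T T'),
    p.length = (flipGraph n k).dist T T' → ∀ e : Edge n, e ∈ T.1 → e ∈ T'.1 →
      ¬ ∃ d ∈ p.darts, e ∈ d.fst.1 ∧ e ∉ d.snd.1

/-- **There is a shortest path between two `2`-triangulations of the octagon that flips a common
edge.** -/
theorem result : (¬ ∀ n k : ℕ, 1 ≤ k → 2 * k + 1 ≤ n → NeverFlipsCommonEdges n k) ∧
    ∃ (T T' : KTriangulation 8 2) (p : (flipGraph 8 2).Walk T T') (e : Edge 8),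
      p.length = 4 ∧ (flipGraph 8 2).dist T T' = 4 ∧ e.1 = (3, 7) ∧ e ∈ T.1 ∧ e ∈ T'.1 ∧
        ∃ d ∈ p.darts, e ∈ d.fst.1 ∧ e ∉ d.snd.1 := by
  have key : ∃ (T T' : KTriangulation 8 2) (p : (flipGraph 8 2).Walk T T') (e : Edge 8),
      p.length = 4 ∧ (flipGraph 8 2).dist T T' = 4 ∧ e.1 = (3, 7) ∧ e ∈ T.1 ∧ e ∈ T'.1 ∧
        ∃ d ∈ p.darts, e ∈ d.fst.1 ∧ e ∉ d.snd.1 := by
    let p : (flipGraph 8 2).Walk ⟨T0, isT0⟩ ⟨T4, isT4⟩ :=
      .cons adj01 (.cons adj12 (.cons adj23 (.cons adj34 .nil)))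
    have hlen : p.length = 4 := rfl
    have hdist : (flipGraph 8 2).dist ⟨T0, isT0⟩ ⟨T4, isT4⟩ = 4 := by
      refine le_antisymm (hlen ▸ SimpleGraph.dist_le p) ?_
      obtain ⟨q, hq⟩ := (SimpleGraph.Walk.reachable p).exists_walk_length_eq_dist
      rw [← hq]
      exact four_le q rfl rfl
    refine ⟨⟨T0, isT0⟩, ⟨T4, isT4⟩, p, ⟨(3, 7), by decide⟩, hlen, hdist, rfl, ?_, ?_,
      ⟨(⟨T0, isT0⟩, ⟨T1, isT1⟩), adj01⟩, ?_, ?_, ?_⟩
    · change (⟨(3, 7), by decide⟩ : Edge 8) ∈ T0
      decide +kernel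
    · change (⟨(3, 7), by decide⟩ : Edge 8) ∈ T4
      decide +kernel
    · simp [p]
    · change (⟨(3, 7), by decide⟩ : Edge 8) ∈ T0
      decide +kernel
    · change ¬ (⟨(3, 7), by decide⟩ : Edge 8) ∈ T1
      decide +kernel
  refine ⟨fun h => ?_, key⟩
  obtain ⟨T, T', p, e, h1, h2, _, h4, h5, h6⟩ := key
  exact h 8 2 (by norm_num) (by norm_num) T T' p (h1.trans h2.symm) e h4 h5 h6

end Pool.Agent.Results.MP_1d99bd_co.CommonEdgeFlipped
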